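import Pool.Agent.SGE.Stmts

/-!
# Row CNS: near-triangulations have rightmost canonical sequences
-/

set_option autoImplicit false

noncomputable section

namespace Pool.Agent.SGE.H15

open Pool.Agent.SGE

variable {V : Type}

/-- the induction statement -/
def Good (a b : V) (C : List V) (E : V → V → Prop) : Prop := ∃ S, RCan a b C S ∧
  (∀ v x, E v x → v = a ∨ v = b ∨ ∃ y ∈ S, y.1 = v) ∧
  (∀ u w, E u w → (u = a ∧ w = b) ∨ (u = b ∧ w = a) ∨ (∃ y ∈ S, y.1 = u ∧ w ∈ y.2) ∨
    ∃ y ∈ S, y.1 = w ∧ u ∈ y.2) ∧
  (∀ (P : List V) (w w' : V) (Q : List V), C = P ++ w :: w' :: Q → w ≠ a →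
    (w' = b ∨ ∃ z ∈ P, E w' z) → ∃ y ∈ S, y.1 = w ∧ y.2.getLast? = some w') ∧
  ∀ y ∈ S, ∃ x, E y.1 x

/-- a fan from `x` to `x` has only one element -/
theorem fan_same {E : V → V → Prop} {F : V → V → V → Prop} {x w : V} (h : Fan E F x w x) :
    ∀ z, E w z ↔ z = x := by
  obtain ⟨l, h1, h2, -, h4, h5, -⟩ := h
  intro z
  rw [h5]
  cases l with
  | nil => simp at h1
  | cons y t =>
    have e : y = x := by simpa using h1
    subst e
    cases t with
    | nil => simp
    | cons u t =>
      exfalso
      have h6 : y ∈ u :: t := by
        rw [List.getLast?_cons_cons] at h2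
        exact List.mem_of_getLast? h2
      exact (List.nodup_cons.1 h4).1 h6

variable [Fintype V] {a b : V} {C : List V} {E : V → V → Prop} {F : V → V → V → Prop}

theorem eab (h : NT a b C E F) : E a b := by
  have hh := h.hd
  have hb := h.bd
  cases C with
  | nil => simp at hh
  | cons x C =>
    simp only [List.head?_cons, Option.some.injEq] at hh
    subst hh
    cases C with
    | nil =>
      obtain ⟨l, h1, -, -, -, h5, -⟩ := hb.1
      exact (h5 b).2 (List.mem_of_head? h1)
    | cons y C =>
      obtain ⟨l, h1, -, -, -, h5, -⟩ := hb.1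
      exact (h5 b).2 (List.mem_of_head? h1)

/-- the base case -/
theorem good_base (h : NT a b [a, b] E F) : Good a b [a, b] E := by
  have hb := h.bd
  have h1 : ∀ z, E a z ↔ z = b := fan_same hb.1
  have h2 : ∀ z, E b z ↔ z = a := fan_same hb.2.1
  have h3 : ∀ u, Relation.ReflTransGen E a u → u = a ∨ u = b := by
    intro u hu
    induction hu with
    | refl => exact Or.inl rfl
    | tail _ e ih =>
      rcases ih with rfl | rfl
      · exact Or.inr ((h1 _).1 e)
      · exact Or.inl ((h2 _).1 e)
  refine ⟨[], RCan.base h.ab, ?_, ?_, ?_, ?_⟩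
  · intro v x e
    rcases h3 v (h.con v x e) with h4 | h4
    · exact Or.inl h4
    · exact Or.inr (Or.inl h4)
  · intro u w e
    rcases h3 u (h.con u w e) with h4 | h4
    · subst h4
      exact Or.inl ⟨rfl, (h1 w).1 e⟩
    · subst h4
      exact Or.inr (Or.inl ⟨rfl, (h2 w).1 e⟩)
  · intro P w w' Q hC hw _
    exfalso
    cases P with
    | nil =>
      simp at hC
      exact hw hC.1.symm
    | cons p P =>
      have := congrArg List.length hC
      simp at this
      omega
  · intro y hy
    simp at hy

/-- two decompositions of a list -/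
theorem two_dec {L₁ L₂ P Q : List V} {v w w' : V} (h : L₁ ++ v :: L₂ = P ++ w :: w' :: Q) :
    (w = v ∧ P = L₁ ∧ L₂ = w' :: Q) ∨ (w' = v ∧ L₁ = P ++ [w] ∧ L₂ = Q) ∨
    (∃ R, L₁ = P ++ w :: w' :: R) ∨ ∃ R, P = L₁ ++ v :: R ∧ L₂ = R ++ w :: w' :: Q := by
  have h' : L₁ ++ v :: L₂ = (P ++ [w]) ++ w' :: Q := by simpa using h
  rcases List.append_eq_append_iff.1 h' with ⟨as, h1, h2⟩ | ⟨bs, h1, h2⟩
  · cases as with
    | nil =>
      simp only [List.nil_append, List.cons.injEq] at h2
      simp only [List.append_nil] at h1
      exact Or.inr (Or.inl ⟨h2.1.symm, h1.symm, h2.2⟩)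
    | cons x as =>
      simp only [List.cons_append, List.cons.injEq] at h2
      obtain ⟨rfl, h2⟩ := h2
      rcases List.eq_nil_or_concat as with h3 | ⟨R, y, h3⟩
      · subst h3
        have h4 := List.append_inj_right' (t₁ := [w]) (t₂ := [v]) h1 rfl
        have h5 := List.append_inj_left' (t₁ := [w]) (t₂ := [v]) h1 rfl
        simp only [List.cons.injEq, and_true] at h4
        exact Or.inl ⟨h4, h5, h2⟩
      · rw [List.concat_eq_append] at h3
        subst h3
        have h1' : P ++ [w] = (L₁ ++ v :: R) ++ [y] := by simpa using h1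
        have h4 := List.append_inj_right' (t₁ := [w]) (t₂ := [y]) h1' rfl
        have h5 := List.append_inj_left' (t₁ := [w]) (t₂ := [y]) h1' rfl
        simp only [List.cons.injEq, and_true] at h4
        subst h4
        refine Or.inr (Or.inr (Or.inr ⟨R, h5, ?_⟩))
        rw [h2]
        simp
  · cases bs with
    | nil =>
      simp only [List.nil_append, List.cons.injEq] at h2
      simp only [List.append_nil] at h1
      exact Or.inr (Or.inl ⟨h2.1, h1, h2.2.symm⟩)
    | cons x bs =>
      simp only [List.cons_append, List.cons.injEq] at h2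
      obtain ⟨rfl, h2⟩ := h2
      refine Or.inr (Or.inr (Or.inl ⟨bs, ?_⟩))
      rw [h1]
      simp

theorem cns (hCB : CbStmt) (hREM : RemStmt) (hEXV : ExvStmt) : CnsStmt := by
  intro V _ a b C E F hNT
  have key : ∀ (n : ℕ) (C : List V) (E : V → V → Prop) (F : V → V → V → Prop),
      NT a b C E F → ({u | ∃ x, E u x} : Set V).ncard ≤ n → Good a b C E := by
    intro n
    induction n with
    | zero =>
      intro C E F h hn
      exfalso
      have h1 : ({u | ∃ x, E u x} : Set V) = ∅ := by
        rw [← Set.ncard_eq_zero (Set.toFinite _)]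
        omega
      have h2 : a ∈ ({u | ∃ x, E u x} : Set V) := ⟨b, eab h⟩
      rw [h1] at h2
      exact h2
    | succ n ih =>
      intro C E F h hn
      by_cases hC : C = [a, b]
      · subst hC
        exact good_base h
      obtain ⟨P, p, v, q, Q, rfl, hv, hq⟩ := hEXV h hC
      obtain ⟨mid, E', F', h', hE', hm⟩ := hREM h hv
      have hnd := h.nd
      have hnd' := h'.nd
      -- v has a neighbour
      have evp : E v p := (hm p).2 (by simp)
      have hcard : ({u | ∃ x, E' u x} : Set V).ncard ≤ n := by
        have h1 : ({u | ∃ x, E' u x} : Set V) ⊆ {u | ∃ x, E u x} \ {v} := by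
          rintro u ⟨x, hx⟩
          have := (hE' u x).1 hx
          exact ⟨⟨x, this.1⟩, this.2.1⟩
        have h2 := Set.ncard_le_ncard h1 (Set.toFinite _)
        have h3 : (({u | ∃ x, E u x} : Set V) \ {v}).ncard < ({u | ∃ x, E u x} : Set V).ncard :=
          Set.ncard_diff_singleton_lt_of_mem ⟨p, evp⟩ (Set.toFinite _)
        omega
      obtain ⟨S, hS, g1, g2, g3, g4⟩ := ih _ _ _ h' hcard
      obtain ⟨c1, c2, c3, c4, c5, c6⟩ := hCB hS.can
      have hva : v ≠ a := by
        rintro rfl
        have hh := h.hd
        cases P with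
        | nil =>
          simp only [List.nil_append, List.head?_cons, Option.some.injEq] at hh
          subst hh
          simp at hnd
        | cons x P =>
          simp only [List.cons_append, List.head?_cons, Option.some.injEq] at hh
          subst hh
          simp at hnd
      have hvb : v ≠ b := by
        rintro rfl
        have hh := h.ls
        have : v ∈ q :: Q := by
          have e : P ++ p :: v :: q :: Q = (P ++ [p, v]) ++ q :: Q := by simp
          rw [e, List.getLast?_append_of_ne_nil _ (by simp)] at hh
          exact List.mem_of_getLast? hh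
        have e : P ++ p :: v :: q :: Q = (P ++ [p]) ++ v :: (q :: Q) := by simp
        rw [e] at hnd
        have := (List.nodup_cons.1 (List.nodup_append.1 hnd).2.1).1
        contradiction
      -- facts from `Nodup`
      have eC : P ++ p :: v :: q :: Q = (P ++ [p]) ++ v :: (q :: Q) := by simp
      have hnd2 := hnd
      rw [eC] at hnd2
      obtain ⟨n1, n2, n3⟩ := List.nodup_append.1 hnd2
      have n4 := (List.nodup_cons.1 n2).1
      have n5 := (List.nodup_cons.1 n2).2
      have nvP : ∀ z ∈ P ++ [p], z ≠ v := fun z hz e => n3 z hz v (by simp) e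
      have nvQ : ∀ z ∈ q :: Q, z ≠ v := fun z hz e => n4 (e ▸ hz)
      have npQ : ∀ z ∈ q :: Q, z ≠ p := fun z hz e =>
        n3 p (by simp) z (List.mem_cons_of_mem _ hz) e.symm
      have nqP : ∀ z ∈ P ++ [p], z ≠ q := fun z hz e => n3 z hz q (by simp) e
      have hSv : ∀ x ∈ S, x.1 ≠ v := by
        intro x hx e
        obtain ⟨t, ht⟩ := g4 x hx
        exact ((hE' _ _).1 ht).2.1 e
      have hstar : ∀ m, mid.getLast? = some m → ∃ y ∈ S, y.1 = m ∧ y.2.getLast? = some q := by
        intro m hmid
        obtain ⟨mid0, rfl⟩ : ∃ mid0, mid = mid0 ++ [m] := by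
          rcases List.eq_nil_or_concat mid with h3 | ⟨R, y, h3⟩
          · subst h3
            simp at hmid
          · rw [List.concat_eq_append] at h3
            subst h3
            simp at hmid
            exact ⟨R, by rw [hmid]⟩
        refine g3 (P ++ p :: mid0) m q Q (by simp) ?_ ?_
        · rintro rfl
          have hh := h'.hd
          have e : P ++ p :: (mid0 ++ [m] ++ q :: Q) = (P ++ p :: mid0) ++ m :: (q :: Q) := by simp
          rw [e] at hnd' hh
          cases P with
          | nil =>
            simp only [List.nil_append, List.cons_append, List.head?_cons,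
              Option.some.injEq] at hh
            subst hh
            simp at hnd'
          | cons x P =>
            simp only [List.cons_append, List.head?_cons, Option.some.injEq] at hh
            subst hh
            simp at hnd'
        · rcases hq with h3 | ⟨z, hz, h3⟩
          · exact Or.inl h3
          · refine Or.inr ⟨z, ?_, (hE' _ _).2 ⟨h3, nvQ q (by simp), nvP z hz⟩⟩
            simp only [List.mem_append, List.mem_singleton] at hz
            simp only [List.mem_append, List.mem_cons]
            tauto
      refine ⟨(v, p :: (mid ++ [q])) :: S, RCan.step hS hva hvb hSv hstar, ?_, ?_, ?_, ?_⟩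
      · intro u x e
        by_cases hu : u = v
        · exact Or.inr (Or.inr ⟨_, List.mem_cons_self, hu.symm⟩)
        by_cases hx : x = v
        · subst hx
          have h3 := (hm u).1 (h.sym _ _ e)
          rcases c4 u (by
            simp only [List.mem_append, List.mem_cons, List.mem_singleton] at h3 ⊢
            tauto) with h4 | h4 | ⟨y, hy, h4⟩
          · exact Or.inl h4
          · exact Or.inr (Or.inl h4)
          · exact Or.inr (Or.inr ⟨y, List.mem_cons_of_mem _ hy, h4⟩)
        rcases g1 u x ((hE' _ _).2 ⟨e, hu, hx⟩) with h4 | h4 | ⟨y, hy, h4⟩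
        · exact Or.inl h4
        · exact Or.inr (Or.inl h4)
        · exact Or.inr (Or.inr ⟨y, List.mem_cons_of_mem _ hy, h4⟩)
      · intro u w e
        by_cases hu : u = v
        · subst hu
          exact Or.inr (Or.inr (Or.inl ⟨_, List.mem_cons_self, rfl, (hm w).1 e⟩))
        by_cases hw : w = v
        · subst hw
          exact Or.inr (Or.inr (Or.inr ⟨_, List.mem_cons_self, rfl, (hm u).1 (h.sym _ _ e)⟩))
        rcases g2 u w ((hE' _ _).2 ⟨e, hu, hw⟩) with h4 | h4 | ⟨y, hy, h4⟩ | ⟨y, hy, h4⟩
        · exact Or.inl h4
        · exact Or.inr (Or.inl h4)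
        · exact Or.inr (Or.inr (Or.inl ⟨y, List.mem_cons_of_mem _ hy, h4⟩))
        · exact Or.inr (Or.inr (Or.inr ⟨y, List.mem_cons_of_mem _ hy, h4⟩))
      · intro P₁ w w' Q₁ hdec hwa hw'
        rw [eC] at hdec
        rcases two_dec hdec with ⟨h3, h4, h5⟩ | ⟨h3, h4, h5⟩ | ⟨R, h3⟩ | ⟨R, h3, h4⟩
        · -- `w = v`
          simp only [List.cons.injEq] at h5
          refine ⟨_, List.mem_cons_self, h3.symm, ?_⟩
          rw [← h5.1]
          change ((p :: mid) ++ [q]).getLast? = some q
          exact List.getLast?_concat
        · -- `w' = v`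
          exfalso
          rcases hw' with h6 | ⟨z, hz, h6⟩
          · exact hvb (h3.symm.trans h6)
          · rw [h3] at h6
            have hzP : z ∈ P ++ [p] := by rw [h4]; simp [hz]
            rcases hv z (by simp only [List.mem_append, List.mem_cons, List.mem_singleton] at hzP ⊢; tauto) h6
              with h7 | h7
            · have h8 : P = P₁ := List.append_inj_left' h4 rfl
              have h9 := (List.nodup_append.1 n1).2.2 z (h8 ▸ hz) p (by simp)
              exact h9 h7
            · exact nqP z hzP h7
        · -- both in `P ++ [p]`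
          obtain ⟨y, hy, h6⟩ := g3 P₁ w w' (R ++ mid ++ q :: Q) (by
            have e : P ++ p :: (mid ++ q :: Q) = (P ++ [p]) ++ (mid ++ q :: Q) := by simp
            rw [e, h3]
            simp) hwa (by
            rcases hw' with h6 | ⟨z, hz, h6⟩
            · exact Or.inl h6
            · exact Or.inr ⟨z, hz, (hE' _ _).2 ⟨h6, nvP w' (by rw [h3]; simp),
                nvP z (by rw [h3]; simp [hz])⟩⟩)
          exact ⟨y, List.mem_cons_of_mem _ hy, h6⟩
        · -- both in `q :: Q`
          have hw'Q : w' ∈ q :: Q := by rw [h4]; simp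
          have hw'q : w' ≠ q := by
            intro e
            rw [h4] at n5
            cases R with
            | nil =>
              simp only [List.nil_append, List.cons.injEq] at h4
              have := (List.nodup_cons.1 n5).1
              rw [← h4.1, ← e] at this
              simp at this
            | cons x R =>
              simp only [List.cons_append, List.cons.injEq] at h4
              have := (List.nodup_cons.1 n5).1
              rw [← h4.1, ← e] at this
              simp at this
          obtain ⟨y, hy, h6⟩ := g3 (P ++ p :: mid ++ R) w w' Q₁ (by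
            rw [h4]
            simp) hwa (by
            rcases hw' with h6 | ⟨z, hz, h6⟩
            · exact Or.inl h6
            · have hzv : z ≠ v := by
                rintro rfl
                rcases hv w' (by
                  simp only [List.mem_append, List.mem_cons] at hw'Q ⊢
                  tauto) (h.sym _ _ h6) with h7 | h7
                · exact npQ w' hw'Q h7
                · exact hw'q h7
              refine Or.inr ⟨z, ?_, (hE' _ _).2 ⟨h6, nvQ w' hw'Q, hzv⟩⟩
              rw [h3] at hz
              simp only [List.mem_append, List.mem_cons, List.mem_singleton] at hz ⊢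
              tauto)
          exact ⟨y, List.mem_cons_of_mem _ hy, h6⟩
      · intro y hy
        rcases List.mem_cons.1 hy with rfl | hy
        · exact ⟨p, evp⟩
        · obtain ⟨x, hx⟩ := g4 y hy
          exact ⟨x, ((hE' _ _).1 hx).1⟩
  obtain ⟨S, h1, h2, h3, h4, -⟩ := key _ C E F hNT le_rfl
  exact ⟨S, h1, h2, h3, h4⟩

end Pool.Agent.SGE.H15
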